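import Mathlib

set_option autoImplicit false

namespace H749Z.LP

universe u v

/-- A loop `(Q, ·, \, /, 1)`: `1` is a two-sided identity, `ldiv a b` (that is `a \ b`) is the
unique solution `x` of `a x = b` and `rdiv b a` (that is `b / a`) is the unique solution `x` of
`x a = b`. -/
class Loop (Q : Type u) extends Mul Q, One Q where
  ldiv : Q → Q → Q
  rdiv : Q → Q → Q
  one_mul : ∀ a : Q, 1 * a = a
  mul_one : ∀ a : Q, a * 1 = a
  mul_ldiv : ∀ a b : Q, a * ldiv a b = b
  ldiv_mul : ∀ a b : Q, ldiv a (a * b) = b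
  rdiv_mul : ∀ a b : Q, rdiv b a * a = b
  mul_rdiv : ∀ a b : Q, rdiv (b * a) a = b

open Loop

/-- Polynomial expressions over `Q` in the variables `V`: terms in `·`, `\`, `/` in which
constants from `Q` may occur. -/
inductive Poly (Q : Type u) (V : Type v) : Type (max u v)
  | var : V → Poly Q V
  | const : Q → Poly Q V
  | mul : Poly Q V → Poly Q V → Poly Q V
  | ldiv : Poly Q V → Poly Q V → Poly Q V
  | rdiv : Poly Q V → Poly Q V → Poly Q V

/-- The value of a polynomial expression under an assignment `w` of the variables. -/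
def Poly.eval {Q : Type u} [Loop Q] {V : Type v} (w : V → Q) : Poly Q V → Q
  | .var x => w x
  | .const c => c
  | .mul p q => p.eval w * q.eval w
  | .ldiv p q => Loop.ldiv (p.eval w) (q.eval w)
  | .rdiv p q => Loop.rdiv (p.eval w) (q.eval w)

/-- The assignment given by `k` tuples `x 0, …, x (k-1)` (of lengths `n i`) and a last tuple `u`. -/
def assign {Q : Type u} {k m : ℕ} {n : Fin k → ℕ} (x : (i : Fin k) → Fin (n i) → Q)
    (u : Fin m → Q) : (Σ i : Fin k, Fin (n i)) ⊕ Fin m → Q :=
  Sum.elim (fun s => x s.1 s.2) u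

/-- `Q` is `k`-supernilpotent: for every polynomial `p`, all tuples `a i ≠ b i` (`i < k`) and
`u`, `v`, if `p(x, u) = p(x, v)` for every `x` in the product of the sets `{a i, b i}` other than
`b`, then also `p(b, u) = p(b, v)`. -/
def Supernilpotent (Q : Type u) [Loop Q] (k : ℕ) : Prop :=
  ∀ (n : Fin k → ℕ) (m : ℕ) (p : Poly Q ((Σ i : Fin k, Fin (n i)) ⊕ Fin m))
    (a b : (i : Fin k) → Fin (n i) → Q) (u v : Fin m → Q), (∀ i, a i ≠ b i) →
    (∀ x : (i : Fin k) → Fin (n i) → Q, (∀ i, x i = a i ∨ x i = b i) → x ≠ b →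
      p.eval (assign x u) = p.eval (assign x v)) →
    p.eval (assign b u) = p.eval (assign b v)

/-- The supernilpotence class: the least `k ≥ 1` for which `Q` is `k`-supernilpotent
(`⊤` if there is none). -/
noncomputable def clSn (Q : Type u) [Loop Q] : ℕ∞ :=
  ⨅ (k : ℕ) (_ : 1 ≤ k ∧ Supernilpotent Q k), (k : ℕ∞)

section
variable {Q : Type u} [Loop Q]

/-- The left translation `x ↦ a x`. -/
def lmul (a : Q) : Equiv.Perm Q where
  toFun x := a * x
  invFun x := ldiv a x
  left_inv x := ldiv_mul a x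
  right_inv x := mul_ldiv a x

/-- The right translation `x ↦ x a`. -/
def rmul (a : Q) : Equiv.Perm Q where
  toFun x := x * a
  invFun x := rdiv x a
  left_inv x := mul_rdiv a x
  right_inv x := rdiv_mul a x

end

/-- The multiplication group: the permutation group generated by all translations. -/
def Mlt (Q : Type u) [Loop Q] : Subgroup (Equiv.Perm Q) :=
  Subgroup.closure (Set.range (lmul (Q := Q)) ∪ Set.range (rmul (Q := Q)))

/-- A normal subloop: a subloop invariant under the stabiliser of `1` in `Mlt Q`. -/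
structure NormalSubloop (Q : Type u) [Loop Q] where
  carrier : Set Q
  one_mem : (1 : Q) ∈ carrier
  mul_mem : ∀ a ∈ carrier, ∀ b ∈ carrier, a * b ∈ carrier
  ldiv_mem : ∀ a ∈ carrier, ∀ b ∈ carrier, ldiv a b ∈ carrier
  rdiv_mem : ∀ a ∈ carrier, ∀ b ∈ carrier, rdiv a b ∈ carrier
  inn_mem : ∀ g ∈ Mlt Q, g 1 = 1 → ∀ a ∈ carrier, g a ∈ carrier

/-- The center `Z(Q)`. -/
def center (Q : Type u) [Loop Q] : Set Q :=
  {a | ∀ x y : Q, a * x = x * a ∧ a * (x * y) = (a * x) * y ∧ x * (a * y) = (x * a) * y ∧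
    x * (y * a) = (x * y) * a}

section
variable {Q : Type u} [Loop Q] (N : NormalSubloop Q)

/-- The coset `x N`. -/
def NormalSubloop.coset (x : Q) : Set Q := (fun c => x * c) '' N.carrier

theorem lmul_mem (a : Q) : lmul a ∈ Mlt Q := Subgroup.subset_closure (Or.inl ⟨a, rfl⟩)

theorem rmul_mem (a : Q) : rmul a ∈ Mlt Q := Subgroup.subset_closure (Or.inr ⟨a, rfl⟩)

theorem NormalSubloop.image_carrier {g : Equiv.Perm Q} (hg : g ∈ Mlt Q) :
    g '' N.carrier = N.coset (g 1) := by
  have h : (lmul (g 1))⁻¹ * g ∈ Mlt Q := (Mlt Q).mul_mem (inv_mem (lmul_mem _)) hg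
  have h1 : ((lmul (g 1))⁻¹ * g) 1 = 1 := by
    rw [Equiv.Perm.mul_apply, Equiv.Perm.inv_eq_iff_eq]
    exact (Loop.mul_one _).symm
  ext y
  constructor
  · rintro ⟨c, hc, rfl⟩
    exact ⟨_, N.inn_mem _ h h1 c hc, mul_ldiv _ _⟩
  · rintro ⟨c, hc, rfl⟩
    refine ⟨_, N.inn_mem _ (inv_mem h) (Equiv.Perm.inv_eq_iff_eq.2 h1.symm) c hc, ?_⟩
    simp [lmul]

theorem NormalSubloop.image_coset {g : Equiv.Perm Q} (hg : g ∈ Mlt Q) (x : Q) :
    g '' N.coset x = N.coset (g x) := by
  have h := N.image_carrier ((Mlt Q).mul_mem hg (lmul_mem x))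
  have h1 : (g * lmul x) 1 = g x := congrArg g (Loop.mul_one x)
  rw [h1] at h
  rw [← h, NormalSubloop.coset, Set.image_image]
  rfl

theorem NormalSubloop.coset_congr {g : Equiv.Perm Q} (hg : g ∈ Mlt Q) {x y : Q}
    (h : N.coset x = N.coset y) : N.coset (g x) = N.coset (g y) := by
  rw [← N.image_coset hg, ← N.image_coset hg, h]

theorem NormalSubloop.mul_congr {x x' y y' : Q} (h : N.coset x = N.coset x')
    (h' : N.coset y = N.coset y') : N.coset (x * y) = N.coset (x' * y') :=
  (N.coset_congr (rmul_mem y) h).trans (N.coset_congr (lmul_mem x') h')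

theorem NormalSubloop.ldiv_congr {x x' y y' : Q} (h : N.coset x = N.coset x')
    (h' : N.coset y = N.coset y') : N.coset (ldiv x y) = N.coset (ldiv x' y') := by
  have h1 : N.coset (x * ldiv x' y') = N.coset y' :=
    (N.mul_congr h rfl).trans (by rw [mul_ldiv])
  have h2 := N.coset_congr (inv_mem (lmul_mem x)) (h'.trans h1.symm)
  exact h2.trans (congrArg N.coset (ldiv_mul x _))

theorem NormalSubloop.rdiv_congr {x x' y y' : Q} (h : N.coset x = N.coset x')
    (h' : N.coset y = N.coset y') : N.coset (rdiv x y) = N.coset (rdiv x' y') := by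
  have h1 : N.coset (rdiv x' y' * y) = N.coset x' :=
    (N.mul_congr rfl h').trans (by rw [rdiv_mul])
  have h2 := N.coset_congr (inv_mem (rmul_mem y)) (h.trans h1.symm)
  exact h2.trans (congrArg N.coset (mul_rdiv y _))

/-- The factor loop `Q / N`: the classes of the relation `x N = y N`. -/
def NormalSubloop.Factor : Type u := Quotient (Setoid.ker N.coset)

/-- The class `x N` of `x` in `Q / N`. -/
def NormalSubloop.cls (x : Q) : N.Factor := Quotient.mk (Setoid.ker N.coset) x

/-- The loop structure of `Q / N`: `(x N) (y N) = (x y) N`, and likewise for `\` and `/`. -/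
instance NormalSubloop.factorLoop : Loop N.Factor where
  mul := Quotient.map₂ (· * ·) fun _ _ h _ _ h' => N.mul_congr h h'
  one := N.cls 1
  ldiv := Quotient.map₂ ldiv fun _ _ h _ _ h' => N.ldiv_congr h h'
  rdiv := Quotient.map₂ rdiv fun _ _ h _ _ h' => N.rdiv_congr h h'
  one_mul a := Quotient.inductionOn a fun x => congrArg N.cls (Loop.one_mul x)
  mul_one a := Quotient.inductionOn a fun x => congrArg N.cls (Loop.mul_one x)
  mul_ldiv a b := Quotient.inductionOn₂ a b fun x y => congrArg N.cls (mul_ldiv x y)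
  ldiv_mul a b := Quotient.inductionOn₂ a b fun x y => congrArg N.cls (ldiv_mul x y)
  rdiv_mul a b := Quotient.inductionOn₂ a b fun x y => congrArg N.cls (rdiv_mul x y)
  mul_rdiv a b := Quotient.inductionOn₂ a b fun x y => congrArg N.cls (mul_rdiv x y)

end

/-- There are normal subloops `1 = N 0 ≤ N 1 ≤ … ≤ N k = Q` with
`N (i+1) / N i ≤ Z(Q / N i)`. -/
def HasCentralSeries (Q : Type u) [Loop Q] (k : ℕ) : Prop :=
  ∃ N : ℕ → NormalSubloop Q, (N 0).carrier = {1} ∧ (N k).carrier = Set.univ ∧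
    ∀ i < k, (N i).carrier ⊆ (N (i + 1)).carrier ∧
      ∀ a ∈ (N (i + 1)).carrier, (N i).cls a ∈ center (N i).Factor

/-- The central nilpotence class: the least length of a central series (`⊤` if there is none). -/
noncomputable def clCn (Q : Type u) [Loop Q] : ℕ∞ :=
  ⨅ (k : ℕ) (_ : HasCentralSeries Q k), (k : ℕ∞)

end H749Z.LP
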