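import Mathlib
import Pool.Agent.H749Z.Loop.Defs

set_option autoImplicit false

namespace H749Z.LP

universe u

/-- An `n`-ary operation is absorbing if its value is `1` whenever some argument is `1`. -/
def Absorbing {Q : Type u} [One Q] {n : ℕ} (f : (Fin n → Q) → Q) : Prop :=
  ∀ x : Fin n → Q, (∃ i, x i = 1) → f x = 1

/-- `Q` is `k`-supernilpotent: every absorbing polynomial operation of arity `> k` is constant. -/
def AbsSupernilpotent (Q : Type u) [Loop Q] (k : ℕ) : Prop :=
  ∀ n, k < n → ∀ p : Poly Q (Fin n), Absorbing (fun x => p.eval x) →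
    ∀ x y : Fin n → Q, p.eval x = p.eval y

end H749Z.LP
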