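import Mathlib
import Pool.Agent.H749Z.Loop.Defs

set_option autoImplicit false

namespace H749Z.LP

open Loop

/-- The cocycle. -/
def th {m : ℕ} (a b : Fin (m + 2) → ZMod 2) : ZMod 2 := (∏ j, a j) * b 0

theorem th_zero_left {m : ℕ} (b : Fin (m + 2) → ZMod 2) : th 0 b = 0 := by
  simp [th]

theorem th_zero_right {m : ℕ} (a : Fin (m + 2) → ZMod 2) : th a 0 = 0 := by
  simp [th]

@[ext] structure QL (m : ℕ) where
  fst : Fin (m + 2) → ZMod 2
  snd : ZMod 2

instance (m : ℕ) : Loop (QL m) where
  mul x y := ⟨x.fst + y.fst, x.snd + y.snd + th x.fst y.fst⟩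
  one := ⟨0, 0⟩
  ldiv x y := ⟨y.fst - x.fst, y.snd - x.snd - th x.fst (y.fst - x.fst)⟩
  rdiv y x := ⟨y.fst - x.fst, y.snd - x.snd - th (y.fst - x.fst) x.fst⟩
  one_mul a := by
    change (⟨0 + a.fst, 0 + a.snd + th 0 a.fst⟩ : QL m) = a
    ext1 <;> simp [th_zero_left]
  mul_one a := by
    change (⟨a.fst + 0, a.snd + 0 + th a.fst 0⟩ : QL m) = a
    ext1 <;> simp [th_zero_right]
  mul_ldiv a b := by
    change (⟨a.fst + (b.fst - a.fst), a.snd + (b.snd - a.snd - th a.fst (b.fst - a.fst)) +
      th a.fst (b.fst - a.fst)⟩ : QL m) = b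
    ext1
    · simp
    · simp only; ring
  ldiv_mul a b := by
    change (⟨(a.fst + b.fst) - a.fst, (a.snd + b.snd + th a.fst b.fst) - a.snd -
      th a.fst ((a.fst + b.fst) - a.fst)⟩ : QL m) = b
    ext1
    · simp
    · simp only [add_sub_cancel_left]; ring
  rdiv_mul a b := by
    change (⟨(b.fst - a.fst) + a.fst, (b.snd - a.snd - th (b.fst - a.fst) a.fst) + a.snd +
      th (b.fst - a.fst) a.fst⟩ : QL m) = b
    ext1
    · simp
    · simp only; ring
  mul_rdiv a b := by
    change (⟨(b.fst + a.fst) - a.fst, (b.snd + a.snd + th b.fst a.fst) - a.snd -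
      th ((b.fst + a.fst) - a.fst) a.fst⟩ : QL m) = b
    ext1
    · simp
    · simp only [add_sub_cancel_right]; ring

section
variable {m : ℕ}

@[simp] theorem mul_fst (x y : QL m) : (x * y).fst = x.fst + y.fst := rfl
@[simp] theorem mul_snd (x y : QL m) : (x * y).snd = x.snd + y.snd + th x.fst y.fst := rfl
@[simp] theorem one_fst : (1 : QL m).fst = 0 := rfl
@[simp] theorem one_snd : (1 : QL m).snd = 0 := rfl
@[simp] theorem ldiv_fst (x y : QL m) : (ldiv x y).fst = y.fst - x.fst := rfl
@[simp] theorem ldiv_snd (x y : QL m) :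
    (ldiv x y).snd = y.snd - x.snd - th x.fst (y.fst - x.fst) := rfl
@[simp] theorem rdiv_fst (x y : QL m) : (rdiv y x).fst = y.fst - x.fst := rfl
@[simp] theorem rdiv_snd (x y : QL m) :
    (rdiv y x).snd = y.snd - x.snd - th (y.fst - x.fst) x.fst := rfl

def qlEquiv (m : ℕ) : QL m ≃ (Fin (m + 2) → ZMod 2) × ZMod 2 where
  toFun x := (x.fst, x.snd)
  invFun y := ⟨y.1, y.2⟩
  left_inv _ := rfl
  right_inv _ := rfl

theorem card_ql : Nat.card (QL m) = 2 ^ (m + 3) := by
  rw [Nat.card_congr (qlEquiv m)]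
  simp [pow_succ]

/-! Degree of functions on a cube. -/

def DegLE {ι : Type} (d : ℕ) (φ : (ι → ZMod 2) → ZMod 2) : Prop :=
  ∃ P : MvPolynomial ι (ZMod 2), P.totalDegree ≤ d ∧ ∀ w, MvPolynomial.eval w P = φ w

namespace DegLE
variable {ι : Type}

theorem mono {d e : ℕ} {φ : (ι → ZMod 2) → ZMod 2} (h : DegLE d φ) (hd : d ≤ e) : DegLE e φ := by
  obtain ⟨P, h1, h2⟩ := h
  exact ⟨P, h1.trans hd, h2⟩

theorem const (d : ℕ) (c : ZMod 2) : DegLE (ι := ι) d fun _ => c :=
  ⟨MvPolynomial.C c, by simp, by simp⟩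

theorem coord (i : ι) : DegLE 1 fun w : ι → ZMod 2 => w i :=
  ⟨MvPolynomial.X i, by simp, by simp⟩

theorem add {d : ℕ} {φ ψ : (ι → ZMod 2) → ZMod 2} (h : DegLE d φ) (h' : DegLE d ψ) :
    DegLE d fun w => φ w + ψ w := by
  obtain ⟨P, h1, h2⟩ := h
  obtain ⟨R, h3, h4⟩ := h'
  exact ⟨P + R, (MvPolynomial.totalDegree_add P R).trans (max_le h1 h3), by simp [h2, h4]⟩

theorem sub {d : ℕ} {φ ψ : (ι → ZMod 2) → ZMod 2} (h : DegLE d φ) (h' : DegLE d ψ) :
    DegLE d fun w => φ w - ψ w := by
  obtain ⟨P, h1, h2⟩ := h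
  obtain ⟨R, h3, h4⟩ := h'
  exact ⟨P - R, (MvPolynomial.totalDegree_sub P R).trans (max_le h1 h3), by simp [h2, h4]⟩

theorem mul {d e : ℕ} {φ ψ : (ι → ZMod 2) → ZMod 2} (h : DegLE d φ) (h' : DegLE e ψ) :
    DegLE (d + e) fun w => φ w * ψ w := by
  obtain ⟨P, h1, h2⟩ := h
  obtain ⟨R, h3, h4⟩ := h'
  exact ⟨P * R, (MvPolynomial.totalDegree_mul P R).trans (add_le_add h1 h3), by simp [h2, h4]⟩

theorem prod {κ : Type} (s : Finset κ) {φ : κ → (ι → ZMod 2) → ZMod 2}
    (h : ∀ j, DegLE 1 (φ j)) : DegLE s.card fun w => ∏ j ∈ s, φ j w := by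
  classical
  induction s using Finset.induction_on with
  | empty => simpa using const 0 1
  | insert a s ha ih =>
    have := (h a).mul ih
    rw [Finset.card_insert_of_notMem ha, add_comm]
    simpa [Finset.prod_insert ha] using this

theorem th {φ ψ : (ι → ZMod 2) → Fin (m + 2) → ZMod 2} (h : ∀ j, DegLE 1 fun w => φ w j)
    (h' : ∀ j, DegLE 1 fun w => ψ w j) : DegLE (m + 3) fun w => th (φ w) (ψ w) := by
  have := (prod Finset.univ h).mul (h' 0)
  simpa [H749Z.LP.th] using this

theorem sum_eq_zero [Fintype ι] [DecidableEq ι] {d : ℕ} {φ : (ι → ZMod 2) → ZMod 2}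
    (h : DegLE d φ) (hd : d < Fintype.card ι) : ∑ w, φ w = 0 := by
  obtain ⟨P, h1, h2⟩ := h
  have := MvPolynomial.sum_eval_eq_zero P (by simpa using h1.trans_lt hd)
  simpa [h2] using this

end DegLE

/-- A map from the cube to the loop of low degree. -/
def Low {ι : Type} (φ : (ι → ZMod 2) → QL m) : Prop :=
  (∀ j, DegLE 1 fun w => (φ w).fst j) ∧ DegLE (m + 3) fun w => (φ w).snd

theorem low_eval {ι V : Type} (σ : (ι → ZMod 2) → V → QL m) (hσ : ∀ x, Low fun w => σ w x)
    (p : Poly (QL m) V) : Low fun w => p.eval (σ w) := by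
  induction p with
  | var x => exact hσ x
  | const c => exact ⟨fun j => DegLE.const 1 (c.fst j), DegLE.const _ c.snd⟩
  | mul p q hp hq =>
    exact ⟨fun j => (hp.1 j).add (hq.1 j), (hp.2.add hq.2).add (DegLE.th hp.1 hq.1)⟩
  | ldiv p q hp hq =>
    exact ⟨fun j => (hq.1 j).sub (hp.1 j),
      (hq.2.sub hp.2).sub (DegLE.th hp.1 fun j => (hq.1 j).sub (hp.1 j))⟩
  | rdiv p q hp hq =>
    exact ⟨fun j => (hp.1 j).sub (hq.1 j),
      (hp.2.sub hq.2).sub (DegLE.th (fun j => (hp.1 j).sub (hq.1 j)) hq.1)⟩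

theorem zmod2_cases (t : ZMod 2) : t = 0 ∨ t = 1 := by
  revert t; decide

theorem degLE_ite {ι : Type} (i : ι) (c e : ZMod 2) :
    DegLE 1 fun w : ι → ZMod 2 => if w i = 0 then c else e := by
  have := (DegLE.const (ι := ι) 1 c).add ((DegLE.coord i).mul (DegLE.const 0 (e - c)))
  convert this using 2 with w
  rcases zmod2_cases (w i) with h | h <;> simp [h]

theorem low_ite {ι : Type} (i : ι) (c e : QL m) :
    Low fun w : ι → ZMod 2 => if w i = 0 then c else e := by
  refine ⟨fun j => ?_, ?_⟩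
  · convert degLE_ite i (c.fst j) (e.fst j) using 2 with w
    beta_reduce
    split_ifs <;> rfl
  · convert (degLE_ite i c.snd e.snd).mono (show 1 ≤ m + 3 by omega) using 2 with w
    beta_reduce
    split_ifs <;> rfl

theorem cube_cancel {k : ℕ} (φ : (Option (Fin k) → ZMod 2) → ZMod 2) {d : ℕ} (hφ : DegLE d φ)
    (hd : d ≤ k) (h : ∀ w : Fin k → ZMod 2, w ≠ 1 →
      φ (fun o => o.elim 0 w) = φ (fun o => o.elim 1 w)) :
    φ (fun o => o.elim 0 1) = φ (fun o => o.elim 1 1) := by
  have h0 := hφ.sum_eq_zero (by simp; omega)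
  rw [← (Equiv.piOptionEquivProd (β := fun _ : Option (Fin k) => ZMod 2)).symm.sum_comp,
    Fintype.sum_prod_type_right] at h0
  have h1 : ∀ w : Fin k → ZMod 2, ∑ t : ZMod 2,
      φ ((Equiv.piOptionEquivProd (β := fun _ : Option (Fin k) => ZMod 2)).symm (t, w)) =
      φ (fun o => o.elim 0 w) - φ (fun o => o.elim 1 w) := by
    intro w
    have e : ∀ t : ZMod 2,
        (Equiv.piOptionEquivProd (β := fun _ : Option (Fin k) => ZMod 2)).symm (t, w) =
        fun o => o.elim t w := by
      intro t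
      funext o
      cases o <;> rfl
    simp only [e]
    have : (Finset.univ : Finset (ZMod 2)) = {0, 1} := by decide
    rw [this, Finset.sum_pair (by decide), CharTwo.sub_eq_add]
  simp only [h1] at h0
  rw [Finset.sum_eq_single (1 : Fin k → ZMod 2) (fun w _ hw => by rw [h w hw, sub_self])
    (by simp)] at h0
  exact sub_eq_zero.1 h0

theorem supernilpotent_ql : Supernilpotent (QL m) (m + 3) := by
  intro n l p a b u v hab h
  let σ : (Option (Fin (m + 3)) → ZMod 2) → ((Σ i : Fin (m + 3), Fin (n i)) ⊕ Fin l) → QL m :=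
    fun w => assign (fun i => if w (some i) = 0 then a i else b i)
      (if w none = 0 then u else v)
  have hσ : ∀ x, Low fun w => σ w x := by
    rintro (⟨i, j⟩ | j)
    · convert low_ite (some i) (a i j) (b i j) using 2 with w
      simp only [σ, assign, Sum.elim_inl]
      split_ifs <;> rfl
    · convert low_ite (none : Option (Fin (m + 3))) (u j) (v j) using 2 with w
      simp only [σ, assign, Sum.elim_inr]
      split_ifs <;> rfl
  have hL := low_eval σ hσ p
  have key : ∀ w : Fin (m + 3) → ZMod 2, w ≠ 1 →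
      p.eval (σ fun o => o.elim 0 w) = p.eval (σ fun o => o.elim 1 w) := by
    intro w hw
    simp only [σ, Option.elim_some, Option.elim_none, if_true, one_ne_zero, if_false]
    refine h _ (fun i => ?_) fun hb => hw ?_
    · split_ifs <;> simp
    · funext i
      have := congrFun hb i
      rcases zmod2_cases (w i) with h0 | h0
      · simp only [h0, if_true] at this
        exact absurd this (hab i)
      · exact h0
  have e0 : (σ fun o => o.elim 0 1) = assign b u := by
    simp [σ]
  have e1 : (σ fun o => o.elim 1 1) = assign b v := by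
    simp [σ]
  rw [← e0, ← e1]
  ext1
  · funext j
    exact cube_cancel _ (hL.1 j) (by omega) fun w hw => congrArg (fun z : QL m => z.fst j) (key w hw)
  · exact cube_cancel _ hL.2 le_rfl fun w hw => congrArg QL.snd (key w hw)

/-- The product `c * x 0 * ... ` as a polynomial. -/
def prodPoly {Q V : Type} (c : Q) : List V → Poly Q V
  | [] => .const c
  | x :: l => .mul (prodPoly c l) (.var x)

theorem prodPoly_fst {V : Type} (c : QL m) (l : List V) (w : V → QL m) :
    ((prodPoly c l).eval w).fst = c.fst + (l.map fun x => (w x).fst).sum := by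
  induction l with
  | nil => simp [prodPoly, Poly.eval]
  | cons x l ih =>
    simp only [prodPoly, Poly.eval, mul_fst, ih, List.map_cons, List.sum_cons]
    ring

theorem not_supernilpotent_ql {k : ℕ} (hk : k ≤ m + 2) : ¬ Supernilpotent (QL m) k := by
  intro h
  let e : Fin k → QL m := fun i => ⟨Pi.single (Fin.castLE hk i) 1, 0⟩
  let c : QL m := ⟨fun j => if j.val < k then 0 else 1, 0⟩
  let V := (Σ i : Fin k, Fin ((fun _ => 1) i)) ⊕ Fin 1
  let s : Poly (QL m) V := prodPoly c ((List.finRange k).map fun i => Sum.inl ⟨i, (0 : Fin 1)⟩)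
  let y : Poly (QL m) V := .var (Sum.inr 0)
  let p : Poly (QL m) V := .rdiv (.mul s y) (.mul y s)
  have hp : ∀ w : V → QL m, p.eval w = ⟨0, th (s.eval w).fst (w (Sum.inr 0)).fst -
      th (w (Sum.inr 0)).fst (s.eval w).fst⟩ := by
    intro w
    have e1 : (s.eval w).fst + (w (Sum.inr 0)).fst - ((w (Sum.inr 0)).fst + (s.eval w).fst) = 0 := by
      ring
    ext1
    · exact e1
    · simp only [p, y, Poly.eval, rdiv_snd, mul_snd, mul_fst, e1, th_zero_left]
      ring
  have hs : ∀ (x : (i : Fin k) → Fin ((fun _ => 1) i) → QL m) (u : Fin 1 → QL m),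
      (s.eval (assign x u)).fst = c.fst + ∑ i, (x i 0).fst := by
    intro x u
    rw [prodPoly_fst, List.map_map, Fin.sum_univ_def]
    rfl
  let y0 : QL m := ⟨Pi.single 0 1, 0⟩
  have hy0 : ∀ a, th y0.fst a = 0 := by
    intro a
    have : ∏ j, y0.fst j = 0 :=
      Finset.prod_eq_zero (Finset.mem_univ (1 : Fin (m + 2))) (by simp [y0])
    simp [th, this]
  have hv : ∀ x : (i : Fin k) → Fin ((fun _ => 1) i) → QL m,
      p.eval (assign x fun _ => y0) = ⟨0, ∏ j, (c.fst + ∑ i, (x i 0).fst) j⟩ := by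
    intro x
    rw [hp, hs]
    change (⟨0, th _ y0.fst - th y0.fst _⟩ : QL m) = _
    rw [hy0]
    simp [th, y0]
  have hu : ∀ x : (i : Fin k) → Fin ((fun _ => 1) i) → QL m,
      p.eval (assign x fun _ => 1) = ⟨0, 0⟩ := by
    intro x
    rw [hp]
    change (⟨0, th _ 0 - th 0 _⟩ : QL m) = _
    simp [th_zero_left, th_zero_right]
  have he : ∀ i, (fun _ : Fin 1 => (1 : QL m)) ≠ fun _ => e i := by
    intro i hi
    have := congrFun (congrArg QL.fst (congrFun hi 0)) (Fin.castLE hk i)
    simp [e] at this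
  have := h (fun _ => 1) 1 p (fun _ _ => 1) (fun i _ => e i) (fun _ => 1) (fun _ => y0) he ?_
  · rw [hu, hv] at this
    have h2 := congrArg QL.snd this
    simp only at h2
    rw [Finset.prod_eq_one] at h2
    · exact zero_ne_one h2
    · intro j _
      simp only [c, e, Pi.add_apply, Finset.sum_apply]
      split_ifs with hj
      · rw [Finset.sum_eq_single ⟨j.val, hj⟩]
        · simp
        · intro i _ hi
          rw [Pi.single_eq_of_ne]
          intro hji
          exact hi (Fin.ext (by simp [hji]))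
        · simp
      · rw [Finset.sum_eq_zero]
        · simp
        · intro i _
          rw [Pi.single_eq_of_ne]
          intro hji
          exact hj (by simp [hji])
  · intro x hx hne
    rw [hu, hv]
    obtain ⟨i, hi⟩ := Function.ne_iff.1 hne
    have hi1 : x i = fun _ => 1 := (hx i).resolve_right hi
    congr 1
    symm
    refine Finset.prod_eq_zero (Finset.mem_univ (Fin.castLE hk i)) ?_
    simp only [c, Pi.add_apply, Finset.sum_apply]
    rw [if_pos (by simp), Finset.sum_eq_zero, add_zero]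
    intro i' _
    rcases hx i' with h' | h'
    · simp [h']
    · by_cases hii : i' = i
      · subst hii
        exact absurd h' hi
      · rw [h']
        simp only [e]
        rw [Pi.single_eq_of_ne]
        intro h3
        exact hii (Fin.castLE_injective hk h3).symm

theorem clSn_ql : clSn (QL m) = (m + 3 : ℕ) := by
  apply le_antisymm
  · exact iInf₂_le (m + 3) ⟨by omega, supernilpotent_ql⟩
  · refine le_iInf₂ fun k hk => ?_
    by_contra hlt
    have : k < m + 3 := by exact_mod_cast not_le.1 hlt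
    exact not_supernilpotent_ql (by omega) hk.2

end

section
variable (Q : Type) [Loop Q]

def botN : NormalSubloop Q where
  carrier := {1}
  one_mem := rfl
  mul_mem := by
    rintro a rfl b rfl
    exact Loop.mul_one 1
  ldiv_mem := by
    rintro a rfl b rfl
    have := ldiv_mul (1 : Q) 1
    rwa [Loop.mul_one] at this
  rdiv_mem := by
    rintro a rfl b rfl
    have := mul_rdiv (1 : Q) 1
    rwa [Loop.mul_one] at this
  inn_mem := by
    rintro g _ hg a rfl
    exact hg

def topN : NormalSubloop Q where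
  carrier := Set.univ
  one_mem := trivial
  mul_mem _ _ _ _ := trivial
  ldiv_mem _ _ _ _ := trivial
  rdiv_mem _ _ _ _ := trivial
  inn_mem _ _ _ _ _ := trivial

variable {Q}

theorem cls_mul (N : NormalSubloop Q) (x y : Q) : N.cls x * N.cls y = N.cls (x * y) := rfl

theorem cls_eq (N : NormalSubloop Q) {x y : Q} : N.cls x = N.cls y ↔ N.coset x = N.coset y :=
  Quotient.eq

theorem cls_mem_center (N : NormalSubloop Q) {a : Q} : N.cls a ∈ center N.Factor ↔
    ∀ x y : Q, N.coset (a * x) = N.coset (x * a) ∧ N.coset (a * (x * y)) = N.coset ((a * x) * y) ∧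
      N.coset (x * (a * y)) = N.coset ((x * a) * y) ∧
      N.coset (x * (y * a)) = N.coset ((x * y) * a) := by
  constructor
  · intro h x y
    have := h (N.cls x) (N.cls y)
    simpa only [cls_mul, cls_eq] using this
  · intro h x y
    induction x using Quotient.inductionOn with | _ x => ?_
    induction y using Quotient.inductionOn with | _ y => ?_
    have := h x y
    change N.cls a * N.cls x = N.cls x * N.cls a ∧
      N.cls a * (N.cls x * N.cls y) = (N.cls a * N.cls x) * N.cls y ∧
      N.cls x * (N.cls a * N.cls y) = (N.cls x * N.cls a) * N.cls y ∧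
      N.cls x * (N.cls y * N.cls a) = (N.cls x * N.cls y) * N.cls a
    simpa only [cls_mul, cls_eq] using this

end

section
variable {m : ℕ}

theorem mlt_fst {g : Equiv.Perm (QL m)} (hg : g ∈ Mlt (QL m)) :
    ∀ x y : QL m, (g x).fst = (g y).fst ↔ x.fst = y.fst := by
  induction hg using Subgroup.closure_induction with
  | mem g hg =>
    rcases hg with ⟨a, rfl⟩ | ⟨a, rfl⟩
    · intro x y
      simp [lmul]
    · intro x y
      simp [rmul]
  | one => intro x y; rfl
  | mul g g' _ _ h h' =>
    intro x y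
    rw [Equiv.Perm.mul_apply, Equiv.Perm.mul_apply, h, h']
  | inv g _ h =>
    intro x y
    rw [← h]
    simp

def midN (m : ℕ) : NormalSubloop (QL m) where
  carrier := {x | x.fst = 0}
  one_mem := rfl
  mul_mem a ha b hb := by
    simp only [Set.mem_ofPred_eq] at *
    simp [ha, hb]
  ldiv_mem a ha b hb := by
    simp only [Set.mem_ofPred_eq] at *
    simp [ha, hb]
  rdiv_mem a ha b hb := by
    simp only [Set.mem_ofPred_eq] at *
    simp [ha, hb]
  inn_mem g hg h1 a ha := by
    have := (mlt_fst hg a 1).2 ha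
    rw [h1] at this
    exact this

theorem coset_midN (x : QL m) : (midN m).coset x = {y | y.fst = x.fst} := by
  ext y
  constructor
  · rintro ⟨c, hc, rfl⟩
    have : c.fst = 0 := hc
    simp [this]
  · intro hy
    have : y.fst = x.fst := hy
    exact ⟨ldiv x y, by change (ldiv x y).fst = 0; simp [this], mul_ldiv x y⟩

theorem hasCentralSeries_two : HasCentralSeries (QL m) 2 := by
  refine ⟨fun i => if i = 0 then botN _ else if i = 1 then midN m else topN _, rfl, rfl, ?_⟩
  intro i hi
  obtain rfl | rfl : i = 0 ∨ i = 1 := by omega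
  · refine ⟨?_, ?_⟩
    · rintro x rfl
      rfl
    · intro a ha
      have ha' : a.fst = 0 := ha
      change (botN (QL m)).cls a ∈ center (botN (QL m)).Factor
      rw [cls_mem_center]
      intro x y
      refine ⟨congrArg _ ?_, congrArg _ ?_, congrArg _ ?_, congrArg _ ?_⟩ <;> ext1 <;>
        simp [ha', th_zero_left, th_zero_right] <;> ring
  · refine ⟨fun _ _ => trivial, ?_⟩
    intro a _
    change (midN m).cls a ∈ center (midN m).Factor
    rw [cls_mem_center]
    intro x y
    simp only [coset_midN, mul_fst, add_assoc, add_comm a.fst x.fst, add_left_comm a.fst x.fst,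
      and_self]

theorem not_comm_ql : ∃ x y : QL m, x * y ≠ y * x := by
  refine ⟨⟨1, 0⟩, ⟨Pi.single 0 1, 0⟩, fun h => ?_⟩
  have h2 := congrArg QL.snd h
  have : ∏ j, (Pi.single 0 1 : Fin (m + 2) → ZMod 2) j = 0 :=
    Finset.prod_eq_zero (Finset.mem_univ (1 : Fin (m + 2))) (by simp)
  simp [th, this] at h2

theorem not_hasCentralSeries {k : ℕ} (hk : k < 2) : ¬ HasCentralSeries (QL m) k := by
  rintro ⟨N, h0, h1, h⟩
  obtain ⟨x, y, hxy⟩ := not_comm_ql (m := m)
  obtain rfl | rfl : k = 0 ∨ k = 1 := by omega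
  · rw [h0] at h1
    have e1 : x * y ∈ ({1} : Set (QL m)) := h1 ▸ Set.mem_univ _
    have e2 : y * x ∈ ({1} : Set (QL m)) := h1 ▸ Set.mem_univ _
    exact hxy (e1.trans e2.symm)
  · have := ((cls_mem_center (N 0)).1 ((h 0 one_pos).2 x (h1 ▸ Set.mem_univ _)) y y).1
    simp only [NormalSubloop.coset, h0, Set.image_singleton, Loop.mul_one,
      Set.singleton_eq_singleton_iff] at this
    exact hxy this

theorem clCn_ql : clCn (QL m) = 2 := by
  apply le_antisymm
  · exact iInf₂_le 2 hasCentralSeries_two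
  · refine le_iInf₂ fun k hk => ?_
    by_contra hlt
    have : k < 2 := by exact_mod_cast not_le.1 hlt
    exact not_hasCentralSeries this hk

end

theorem main (k : ℕ) (hk : 3 ≤ k) :
    ∃ (Q : Type) (_ : Loop Q), Nat.card Q = 2 ^ k ∧ clCn Q = 2 ∧ clSn Q = k := by
  obtain ⟨m, rfl⟩ : ∃ m, k = m + 3 := ⟨k - 3, by omega⟩
  exact ⟨QL m, inferInstance, card_ql, clCn_ql, clSn_ql⟩

end H749Z.LP
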