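import Mathlib
import Pool.Agent.H749Z.Loop.DefsAbs
import Pool.Agent.H749Z.HK.Core

set_option autoImplicit false

namespace H749Z.LP

universe u

theorem absSupernilpotent_of_nilpotent (Q : Type u) [Loop Q] [Group.IsNilpotent (Mlt Q)] :
    AbsSupernilpotent Q (2 ^ (Group.nilpotencyClass (Mlt Q) + 1) *
      (Group.nilpotencyClass (Mlt Q)).factorial - 1) := by
  obtain ⟨C, h1, h2, h3, h4, h5, -, h7⟩ := H749Z.HK.exists_cubes (Mlt Q)
    (fun a => ⟨lmul a, lmul_mem a⟩) (fun a => ⟨rmul a, rmul_mem a⟩)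
    (fun _ _ => rfl) (fun _ _ => rfl) Loop.mul_one _ Subgroup.upperCentralSeries_nilpotencyClass
  rw [← H749Z.HK.EE_eq]
  intro n hn p hp
  have key : ∀ x : Fin n → Q, ∀ q : Poly Q (Fin n),
      (fun w : Fin n → Bool => q.eval fun i => if w i then x i else 1) ∈ C n := by
    intro x q
    induction q with
    | var i => exact h1 n i 1 (x i)
    | const c => exact h2 n c
    | mul p q hp hq => exact h3 n _ hp _ hq
    | ldiv p q hp hq => exact h4 n _ hp _ hq _ fun w => Loop.mul_ldiv _ _
    | rdiv p q hp hq => exact h5 n _ hq _ hp _ fun w => Loop.rdiv_mul _ _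
  have h : ∀ x : Fin n → Q, p.eval x = 1 := by
    intro x
    have := h7 n (by omega) _ (key x p) fun w hw => by
      obtain ⟨i, hi⟩ := Function.ne_iff.1 hw
      exact hp _ ⟨i, by simp [hi]⟩
    simpa using this
  intro x y
  rw [h x, h y]

end H749Z.LP
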